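import Pool.Agent.Helper75.Conv.Series

/-! A compact Hausdorff space with a transitive group of homeomorphisms `G` contains an injective
convergent sequence as soon as some subgroup `T` of `G` with an infinite orbit is centralized,
elementwise up to finite index and modulo the top of a finite series of normal subgroups whose
factors are centralized in the same sense by subgroups with countably many orbits, by a subgroup
of countable index. -/

open Topology in
open scoped commutatorElement in
theorem Pool.Agent.Results.MP_2385c0_gt.CentralizerSeries.result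
    {X : Type*} [TopologicalSpace X] [CompactSpace X] [T2Space X]
    {G : Type*} [Group G] [MulAction G X] [ContinuousConstSMul G X]
    [MulAction.IsPretransitive G X] (n : ℕ) (N C : ℕ → Subgroup G)
    (hN : ∀ i, (N i).Normal) (hN0 : N 0 = ⊥)
    (hC : ∀ i < n, ∀ c ∈ C i, ∃ L ≤ N (i + 1), L.relIndex (N (i + 1)) ≠ 0 ∧
      ∀ h ∈ L, ⁅c, h⁆ ∈ N i)
    (horb : ∀ i < n, Countable (MulAction.orbitRel.Quotient (C i) X))
    (T D : Subgroup G) (hDc : Countable (G ⧸ D))
    (hD : ∀ d ∈ D, ∃ L ≤ T, L.relIndex T ≠ 0 ∧ ∀ h ∈ L, ⁅d, h⁆ ∈ N n)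
    (x : X) (hinf : (MulAction.orbit T x).Infinite) :
    ∃ (s : ℕ → X) (a : X), Function.Injective s ∧ Filter.Tendsto s Filter.atTop (𝓝 a) :=
  Helper75.Conv.series n N C hN hN0 hC horb T D hD x hinf
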