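import Pool.Agent.Helper77.Distal.Core

/-! Let `M` be a monoid of continuous self maps of a compact Hausdorff space and `x` a limit point
of its own orbit. If `x` is isolated, for the topology of countable intersections, among the points
of its orbit closure that are proximal to it, then `x` is the limit of an injective sequence. -/

open Topology in
theorem Pool.Agent.Results.MP_2385c0_gt.DistalPoint.result
    {X : Type*} [TopologicalSpace X] [CompactSpace X] [T2Space X]
    {M : Type*} [Monoid M] [MulAction M X] [ContinuousConstSMul M X]
    (x : X) (hx : x ∈ closure (MulAction.orbit M x \ {x}))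
    (U : ℕ → Set X) (hU : ∀ n, U n ∈ 𝓝 x)
    (hprox : ∀ y ∈ closure (MulAction.orbit M x), (∀ n, y ∈ U n) →
      (∃ z : X, (z, z) ∈ closure (Set.range fun a : M => (a • x, a • y))) → y = x) :
    ∃ s : ℕ → X, Function.Injective s ∧ (∀ n, s n ∈ closure (MulAction.orbit M x)) ∧
      Filter.Tendsto s Filter.atTop (𝓝 x) :=
  Helper77.Distal.main hx hU hprox
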