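import Pool.Agent.HFP.All

/-!
# Homogeneous compacta in countable products of compact F-spaces

A compact Hausdorff space `X` is mapped into countably many compact F-spaces `K i` and into one
sequentially compact space `M`, the maps together being injective.  If any point of `X` can be moved
to any other point by a continuous injective map of `X` into itself (for instance if `X` is
homogeneous), then the images of `X` in the F-spaces are finite.  So `X` is sequentially compact, and
metrizable if `M` is.
-/

set_option autoImplicit false

open Filter Topology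

namespace Pool.Agent.Results.MP_2385c0_gt.FSpaceProducts

theorem result (X M : Type) (K : ℕ → Type) [TopologicalSpace X] [T2Space X] [CompactSpace X]
    [TopologicalSpace M] [T2Space M] [SeqCompactSpace M] [∀ i, TopologicalSpace (K i)]
    [∀ i, T2Space (K i)] [∀ i, CompactSpace (K i)]
    (hK : ∀ i,
      (∀ u v : K i → ℝ, Continuous u → Continuous v → (∀ x, u x = 0 ∨ v x = 0) →
        Disjoint (closure {x | u x ≠ 0}) (closure {x | v x ≠ 0})) ∨
      (∀ A B : Set (K i), A.Countable → B.Countable → Disjoint (closure A) B →
        Disjoint A (closure B) → Disjoint (closure A) (closure B)))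
    (g : X → M) (f : ∀ i, X → K i) (hg : Continuous g) (hf : ∀ i, Continuous (f i))
    (hinj : ∀ x y, g x = g y → (∀ i, f i x = f i y) → x = y)
    (hhom : ∀ x y : X, ∃ h : X → X, Continuous h ∧ Function.Injective h ∧ h x = y) :
    (∀ i, (Set.range (f i)).Finite) ∧ SeqCompactSpace X ∧
      (Infinite X → ∃ s : ℕ → X, Function.Injective s ∧ ∃ a, Tendsto s atTop (𝓝 a)) ∧
      (TopologicalSpace.MetrizableSpace M → TopologicalSpace.MetrizableSpace X) := by
  have hS : ∀ i, Pool.Agent.HFP.SepC (K i) := fun i => by
    rcases hK i with h | h
    · exact Pool.Agent.HFP.thm_FSC (K i) h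
    · exact h
  have h1 := Pool.Agent.HFP.all_MAI X M K g f hS hg hf hinj hhom
  exact ⟨h1, Pool.Agent.HFP.all_SQC X M K g f hg hf hinj h1⟩

end Pool.Agent.Results.MP_2385c0_gt.FSpaceProducts
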