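import Pool.Agent.Helper75.Conv.Comm

/-! Let `T` be a group of homeomorphisms of a compact Hausdorff space and `x` a point such that
all points of its orbit closure that are proximal to `x` have infinite orbits and fall into
countably many classes (the colours of `f`), any two points of a class being related by a
continuous map of the orbit closure that commutes with a subgroup of finite index of `T`. Then the
orbit closure of `x` contains an injective convergent sequence. -/

open Topology in
theorem Pool.Agent.Results.MP_2385c0_gt.ProximalCell.result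
    {X : Type*} [TopologicalSpace X] [CompactSpace X] [T2Space X]
    {T : Type*} [Group T] [MulAction T X] [ContinuousConstSMul T X] (x : X)
    (P : Set X) (hP : P = {y | y ∈ closure (MulAction.orbit T x) ∧
      ∃ z : X, (z, z) ∈ closure (Set.range fun t : T => (t • x, t • y))})
    (hinf : ∀ y ∈ P, (MulAction.orbit T y).Infinite) (f : X → ℕ)
    (hf : ∀ y ∈ P, ∀ y' ∈ P, f y = f y' → ∃ θ : X → X,
      ContinuousOn θ (closure (MulAction.orbit T x)) ∧ θ y = y' ∧
        ∃ L : Subgroup T, L.FiniteIndex ∧
          ∀ t ∈ L, ∀ z ∈ closure (MulAction.orbit T x), θ (t • z) = t • θ z) :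
    ∃ (s : ℕ → X) (a : X), Function.Injective s ∧
      (∀ n, s n ∈ closure (MulAction.orbit T x)) ∧ Filter.Tendsto s Filter.atTop (𝓝 a) := by
  subst hP
  exact Helper75.Conv.cell_main (fun y hy hp => hinf y ⟨hy, hp⟩) f
    fun y hy y' hy' hp hp' => hf y ⟨hy, hp⟩ y' ⟨hy', hp'⟩
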